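import Pool.Agent.Helper35.MS.StC

/-!
# Project MS (MP_925021_gt), module AV4: the inequality for the energy
-/

set_option autoImplicit false

namespace Helper42.MS

open Helper35.MS Helper35.PI Helper35.PI2 Helper32.CL

private lemma quad (x s R e : ℝ) (hx : 0 ≤ x) (hs : 0 ≤ s) (hR0 : 0 ≤ R) (hRs : R ≤ s)
    (he0 : 0 < e) (he1 : e ≤ 1 / 1000) (hsle : s ≤ 2 / 3 + 3 / 10 * x - gm0 x * e) :
    4 * (x * R) + e / 20 * ((1 + x) * s) ≤
      6 * (1 + x) * s - 6 * s ^ 2 - 12 * (R * (s - R)) := by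
  have h16 : 0 < 1 + 16 * x := by positivity
  have hg0 : 0 ≤ gm0 x := by unfold gm0; positivity
  rcases le_total x (3 * s) with h | h
  · have h1 : -(3 * s ^ 2) - 2 * s * x - x ^ 2 / 3 ≤ 12 * R ^ 2 - (12 * s + 4 * x) * R := by
      nlinarith [sq_nonneg (R - (3 * s + x) / 6)]
    have h2 : x ^ 2 / 3 ≤ x * s := by nlinarith
    have h3 : e / 20 * (1 + x) ≤ 3 / 10 * x + 9 * gm0 x * e := by
      rcases le_total x 1 with hx1 | hx1
      · have hg : 3 / 170 ≤ gm0 x := by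
          unfold gm0
          rw [div_le_div_iff₀ (by norm_num) (by positivity)]
          linarith
        nlinarith
      · nlinarith [mul_nonneg hg0 he0.le]
    have h4 : e / 20 * (1 + x) ≤ 6 + 3 * x - 9 * s := by nlinarith
    have h5 : s * (e / 20 * (1 + x)) ≤ s * (6 + 3 * x - 9 * s) := mul_le_mul_of_nonneg_left h4 hs
    nlinarith
  · have h1 : 0 ≤ (s - R) * (4 * x - 12 * R) := mul_nonneg (by linarith) (by linarith)
    have h4 : e / 20 * (1 + x) ≤ 6 + 2 * x - 6 * s := by nlinarith [mul_nonneg hg0 he0.le]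
    have h5 : s * (e / 20 * (1 + x)) ≤ s * (6 + 2 * x - 6 * s) := mul_le_mul_of_nonneg_left h4 hs
    nlinarith

/-- AV4. The inequality for the energy. -/
theorem hAV4 (hAV1 : StAV1) (hCE0 : StCE0) : StAV4 := by
  intro V _ _ m a b ε x s v hε0 hε1 hx hs hv hle
  obtain ⟨R, hR0, hRs, hvR, hDR⟩ := hAV1 V m a b
  have hx0 : 0 ≤ x := by rw [hx]; positivity
  have hs0 : 0 ≤ s := by rw [hs]; positivity
  have hv0 : 0 ≤ v := by rw [hv]; positivity
  rw [← hs] at hRs hDR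
  rw [← hv, ← hx] at hvR
  obtain ⟨hf, hg0, _⟩ := hCE0.1 x hx0
  have hη : ε ≤ Real.sqrt (v + ε ^ 2) := by
    apply Real.le_sqrt_of_sq_le
    linarith
  have h1 : gm0 x * ε ≤ gm0 x * Real.sqrt (v + ε ^ 2) := mul_le_mul_of_nonneg_left hη hg0.le
  have hsle : s ≤ 2 / 3 + 3 / 10 * x - gm0 x * ε := by linarith
  have hq := quad x s R ε hx0 hs0 hR0 hRs hε0 hε1 hsle
  refine ⟨by linarith, ?_⟩
  have : 0 ≤ gm0 x * ε := mul_nonneg hg0.le hε0.le
  linarith

end Helper42.MS
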