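import Pool.Agent.Helper35.MS.StK
import Pool.Agent.Helper91.CL.M_PR

/-!
# Project MS (MP_925021_gt), module GRE: the almost parallel functions `|e^⊤|² + ⟨F,e⟩²`
-/

set_option autoImplicit false

namespace Helper42.MS.GRE

open Helper35.MS Helper35.PI Helper35.PI2 Helper32.CL
open Pool.Agent.Helper91.CL (tan_eq tan_orth pyth quad_eq one_le_inf diff_chart)
open scoped ContDiff Manifold Topology ENNReal BigOperators
open MeasureTheory Set Filter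

private lemma alg (v0 v1 h00 h01 h10 h11 r ε : ℝ) (hv : v0 ^ 2 + v1 ^ 2 ≤ 1)
    (hh : 2 * (h00 ^ 2 + h01 ^ 2 + h10 ^ 2 + h11 ^ 2) ≤ ε ^ 2) (hr : r ^ 2 ≤ ε ^ 2) :
    (2 * (v0 * h00 + v1 * h01) + v0 * r) ^ 2 + (2 * (v0 * h10 + v1 * h11) + v1 * r) ^ 2
      ≤ (3 * ε) ^ 2 := by
  have c1 : (v0 * h00 + v1 * h01) ^ 2 ≤ (v0 ^ 2 + v1 ^ 2) * (h00 ^ 2 + h01 ^ 2) := by
    nlinarith [sq_nonneg (v0 * h01 - v1 * h00)]
  have c2 : (v0 * h10 + v1 * h11) ^ 2 ≤ (v0 ^ 2 + v1 ^ 2) * (h10 ^ 2 + h11 ^ 2) := by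
    nlinarith [sq_nonneg (v0 * h11 - v1 * h10)]
  have c3 : (v0 ^ 2 + v1 ^ 2) * (h00 ^ 2 + h01 ^ 2) ≤ h00 ^ 2 + h01 ^ 2 := by
    have : 0 ≤ h00 ^ 2 + h01 ^ 2 := by positivity
    nlinarith
  have c4 : (v0 ^ 2 + v1 ^ 2) * (h10 ^ 2 + h11 ^ 2) ≤ h10 ^ 2 + h11 ^ 2 := by
    have : 0 ≤ h10 ^ 2 + h11 ^ 2 := by positivity
    nlinarith
  have c5 : (v0 ^ 2 + v1 ^ 2) * r ^ 2 ≤ ε ^ 2 := by
    have h1 : (v0 ^ 2 + v1 ^ 2) * r ^ 2 ≤ 1 * r ^ 2 :=
      mul_le_mul_of_nonneg_right hv (by positivity)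
    linarith
  have d1 : (2 * (v0 * h00 + v1 * h01) + v0 * r) ^ 2 ≤
      8 * (v0 * h00 + v1 * h01) ^ 2 + 2 * (v0 * r) ^ 2 := by
    nlinarith [sq_nonneg (2 * (v0 * h00 + v1 * h01) - v0 * r)]
  have d2 : (2 * (v0 * h10 + v1 * h11) + v1 * r) ^ 2 ≤
      8 * (v0 * h10 + v1 * h11) ^ 2 + 2 * (v1 * r) ^ 2 := by
    nlinarith [sq_nonneg (2 * (v0 * h10 + v1 * h11) - v1 * r)]
  nlinarith [sq_nonneg ε]

/-- the function in a chart -/
private noncomputable def gl {N : ℕ} (f : EE 2 → EE N) (e : EE N) (y : EE 2) : ℝ :=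
  ‖e - nrm f y e‖ ^ 2 + (inner ℝ (f y) e : ℝ) ^ 2

private lemma nrm_unique (hNR : StNR) {N : ℕ} (f1 f2 : EE 2 → EE N) (x1 x2 : EE 2) (e : EE N)
    (h1 : LI f1 x1) (h2 : LI f2 x2)
    (hs : Submodule.span ℝ (range fun i => dv1 f1 x1 i) =
      Submodule.span ℝ (range fun i => dv1 f2 x2 i)) :
    nrm f1 x1 e = nrm f2 x2 e := by
  have a1 := hNR 2 N f1 x1 h1
  have a2 := hNR 2 N f2 x2 h2
  have b1 : nrm f1 x1 e - nrm f2 x2 e ∈ Submodule.span ℝ (range fun i => dv1 f1 x1 i) := by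
    have c1 := a1.2.2.1 e
    have c2 := a2.2.2.1 e
    rw [← hs] at c2
    have c3 := Submodule.sub_mem _ c2 c1
    have c4 : e - nrm f2 x2 e - (e - nrm f1 x1 e) = nrm f1 x1 e - nrm f2 x2 e := by abel
    rwa [c4] at c3
  have o1 : ∀ w ∈ Submodule.span ℝ (range fun i => dv1 f1 x1 i),
      (inner ℝ (nrm f1 x1 e) w : ℝ) = 0 := by
    intro w hw
    rw [a1.2.2.2.2.2.2.1, a1.2.1 w hw, inner_zero_right]
  have o2 : ∀ w ∈ Submodule.span ℝ (range fun i => dv1 f1 x1 i),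
      (inner ℝ (nrm f2 x2 e) w : ℝ) = 0 := by
    intro w hw
    rw [hs] at hw
    rw [a2.2.2.2.2.2.2.1, a2.2.1 w hw, inner_zero_right]
  have h3 : (inner ℝ (nrm f1 x1 e - nrm f2 x2 e) (nrm f1 x1 e - nrm f2 x2 e) : ℝ) = 0 := by
    rw [inner_sub_left, o1 _ b1, o2 _ b1, sub_zero]
  rw [inner_self_eq_zero] at h3
  exact sub_eq_zero.1 h3

private lemma grad_chart {N : ℕ} (f : EE 2 → EE N) (x : EE 2) (e : EE N)
    (hd : DifferentiableAt ℝ f x) :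
    ∑ k, ∑ m, ((gram f x)⁻¹ k m * fderiv ℝ (fun y => (inner ℝ (f y) e : ℝ)) x (ee k)) • dv1 f x m =
      e - nrm f x e := by
  rw [tan_eq]
  apply Finset.sum_congr rfl
  intro k _
  apply Finset.sum_congr rfl
  intro m _
  congr 2
  have h1 := (hd.hasFDerivAt.inner ℝ (hasFDerivAt_const e x)).fderiv
  rw [h1]
  simp [dv1, fderivInnerCLM_apply, real_inner_comm]

/-- smoothness of the normal part -/
private lemma nrm_smooth (hSM : Helper35.PI.StSM) {N : ℕ} (f : EE 2 → EE N) (x : EE 2) (e : EE N)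
    (hf : ContDiffAt ℝ ((⊤ : ℕ∞) : WithTop ℕ∞) f x) (hLI : LI f x) :
    ContDiffAt ℝ ((⊤ : ℕ∞) : WithTop ℕ∞) (fun y => nrm f y e) x ∧
      (∀ i, ContDiffAt ℝ ((⊤ : ℕ∞) : WithTop ℕ∞) (fun y => dv1 f y i) x) ∧
      ∀ᶠ y in 𝓝 x, LI f y := by
  have hf' : ContDiffAt ℝ ((⊤ : ℕ∞) : WithTop ℕ∞) (fun z : EE 2 × ℝ => f z.1) (x, 0) :=
    ContDiffAt.comp (x, (0 : ℝ)) hf contDiffAt_fst
  have hS := hSM 2 N (fun z : EE 2 × ℝ => f z.1) (x, 0) hf' hLI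
  have h1 : ∀ᶠ z : EE 2 × ℝ in 𝓝 (x, (0 : ℝ)), LI f z.1 := by
    filter_upwards [hS.1] with z hz
    exact hz.1
  have h6 : ∀ i j, ContDiffAt ℝ ((⊤ : ℕ∞) : WithTop ℕ∞)
      (fun z : EE 2 × ℝ => (gram f z.1)⁻¹ i j) (x, (0 : ℝ)) := hS.2.2.2.2.2.1
  have hι : ContDiffAt ℝ ((⊤ : ℕ∞) : WithTop ℕ∞) (fun y : EE 2 => (y, (0 : ℝ))) x :=
    contDiffAt_id.prodMk contDiffAt_const
  have hG : ∀ i j, ContDiffAt ℝ ((⊤ : ℕ∞) : WithTop ℕ∞) (fun y => (gram f y)⁻¹ i j) x := by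
    intro i j
    have h8 := ContDiffAt.comp x (h6 i j) hι
    exact h8
  have hdv : ∀ i, ContDiffAt ℝ ((⊤ : ℕ∞) : WithTop ℕ∞) (fun y => dv1 f y i) x := by
    intro i
    have h9 : ContDiffAt ℝ ((⊤ : ℕ∞) : WithTop ℕ∞) (fderiv ℝ f) x :=
      hf.fderiv_right (m := ((⊤ : ℕ∞) : WithTop ℕ∞)) (by norm_cast)
    exact h9.clm_apply contDiffAt_const
  refine ⟨?_, hdv, ?_⟩
  · have hin : ∀ k, ContDiffAt ℝ ((⊤ : ℕ∞) : WithTop ℕ∞)
        (fun y => (inner ℝ e (dv1 f y k) : ℝ)) x := fun k =>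
      (contDiffAt_const (c := e)).inner ℝ (hdv k)
    have hterm : ∀ k l, ContDiffAt ℝ ((⊤ : ℕ∞) : WithTop ℕ∞)
        (fun y => ((gram f y)⁻¹ k l * (inner ℝ e (dv1 f y k) : ℝ)) • dv1 f y l) x := fun k l =>
      ((hG k l).mul (hin k)).smul (hdv l)
    have hsum : ContDiffAt ℝ ((⊤ : ℕ∞) : WithTop ℕ∞)
        (fun y => ∑ k, ∑ l, ((gram f y)⁻¹ k l * (inner ℝ e (dv1 f y k) : ℝ)) • dv1 f y l) x :=
      ContDiffAt.sum fun k _ => ContDiffAt.sum fun l _ => hterm k l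
    exact contDiffAt_const.sub hsum
  · have h7 : Tendsto (fun y : EE 2 => (y, (0 : ℝ))) (𝓝 x) (𝓝 (x, (0 : ℝ))) :=
      (Continuous.prodMk_left (0 : ℝ)).continuousAt
    exact h7.eventually h1

private lemma gl_deriv (hNR : StNR) (hSM : Helper35.PI.StSM) {N : ℕ} (f : EE 2 → EE N) (x : EE 2)
    (e : EE N) (hf : ContDiffAt ℝ ∞ f x) (hLI : LI f x) :
    ContDiffAt ℝ 1 (gl f e) x ∧ ∀ k : Fin 2, fderiv ℝ (gl f e) x (ee k) =
      2 * (∑ l, (∑ i, (gram f x)⁻¹ i l * inner ℝ e (dv1 f x i)) * inner ℝ e (sff f x k l)) +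
        2 * (inner ℝ (f x) e : ℝ) * inner ℝ e (dv1 f x k) := by
  obtain ⟨hn, hdv, hev⟩ := nrm_smooth hSM f x e hf hLI
  have hN := hNR 2 N f x hLI
  constructor
  · unfold gl
    have h1 : ContDiffAt ℝ ∞ (fun y => ‖e - nrm f y e‖ ^ 2 + (inner ℝ (f y) e : ℝ) ^ 2) x :=
      ((contDiffAt_const.sub hn).norm_sq ℝ).add ((hf.inner ℝ contDiffAt_const).pow 2)
    exact h1.of_le one_le_inf
  · intro k
    have hne : ((⊤ : ℕ∞) : WithTop ℕ∞) ≠ 0 := by simp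
    have hnd := (hn.differentiableAt hne).hasFDerivAt
    have hfd := (hf.differentiableAt hne).hasFDerivAt
    have hd := ((hasFDerivAt_const e x).sub hnd).norm_sq
    have hd2 := (hfd.inner ℝ (hasFDerivAt_const e x)).pow 2
    have hg := (hd.add hd2).fderiv
    -- the derivative of the normal part
    have key : ∀ l, (inner ℝ (dv1 f x l) (fderiv ℝ (fun y => nrm f y e) x (ee k)) : ℝ) =
        - inner ℝ e (sff f x k l) := by
      intro l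
      have hl := ((hdv l).differentiableAt hne).hasFDerivAt
      have h1 := (hnd.inner ℝ hl).fderiv
      have h2 : (fun y => (inner ℝ (nrm f y e) (dv1 f y l) : ℝ)) =ᶠ[𝓝 x] fun _ => (0 : ℝ) := by
        filter_upwards [hev] with y hy
        exact (hNR 2 N f y hy).1 e l
      have h3 := h2.fderiv_eq (𝕜 := ℝ)
      have h4 : fderiv ℝ (fun y => (inner ℝ (nrm f y e) (dv1 f y l) : ℝ)) x (ee k) = 0 := by
        rw [h3]; simp
      rw [h1] at h4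
      simp only [ContinuousLinearMap.comp_apply, ContinuousLinearMap.prod_apply,
        fderivInnerCLM_apply] at h4
      have h5 : fderiv ℝ (fun y => dv1 f y l) x (ee k) = dv2 f x k l := rfl
      rw [h5] at h4
      have h6 : (inner ℝ (nrm f x e) (dv2 f x k l) : ℝ) = inner ℝ e (sff f x k l) :=
        hN.2.2.2.2.2.2.1 e (dv2 f x k l)
      rw [h6] at h4
      rw [real_inner_comm]
      linarith
    have hgl : fderiv ℝ (gl f e) x = _ := hg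
    rw [hgl]
    simp only [add_apply, smul_apply, ContinuousLinearMap.comp_apply,
      ContinuousLinearMap.prod_apply, fderivInnerCLM_apply, innerSL_apply_apply, zero_apply,
      inner_zero_right, zero_sub, neg_apply, inner_neg_right, Pi.sub_apply]
    rw [tan_eq f x e]
    have h7 : (inner ℝ (∑ k, ∑ l, ((gram f x)⁻¹ k l * (inner ℝ e (dv1 f x k) : ℝ)) • dv1 f x l)
        (fderiv ℝ (fun y => nrm f y e) x (ee k)) : ℝ) =
        -(∑ l, (∑ i, (gram f x)⁻¹ i l * (inner ℝ e (dv1 f x i) : ℝ)) * inner ℝ e (sff f x k l)) := by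
      rw [Finset.sum_comm, sum_inner, ← Finset.sum_neg_distrib]
      apply Finset.sum_congr rfl
      intro l _
      rw [← Finset.sum_smul, real_inner_smul_left, key l]
      ring
    rw [h7]
    have h8 : (inner ℝ (fderiv ℝ f x (ee k)) e : ℝ) = inner ℝ e (dv1 f x k) := real_inner_comm _ _
    rw [h8]
    simp
    ring

/-- the algebra of the gradient estimate -/
private lemma grad_bound (hNR : StNR) (hFR : StFR) {N : ℕ} (f : EE 2 → EE N) (x : EE 2)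
    (e : EE N) (hLI : LI f x) (ε : ℝ) (he : ‖e‖ = 1) (hε : 0 ≤ ε)
    (hH : ‖mcv f x + (2 : ℝ) • f x‖ ≤ ε) (hθ : 2 * nsq f x - ‖mcv f x‖ ^ 2 ≤ ε ^ 2)
    (Dk : Fin 2 → ℝ)
    (hD : ∀ k, Dk k =
      2 * (∑ l, (∑ i, (gram f x)⁻¹ i l * inner ℝ e (dv1 f x i)) * inner ℝ e (sff f x k l)) +
        2 * (inner ℝ (f x) e : ℝ) * inner ℝ e (dv1 f x k)) :
    ‖∑ k, ∑ m, ((gram f x)⁻¹ k m * Dk k) • dv1 f x m‖ ≤ 3 * ε := by
  obtain ⟨-, -, P, hP, -, -, hort, htr, -, hbil⟩ := hFR 2 N f x hLI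
  obtain ⟨B, hB⟩ : ∃ B : Fin 2 → Fin 2 → EE N,
      B = fun a b => ∑ i, ∑ j, (P i a * P j b) • sff f x i j := ⟨_, rfl⟩
  have hBab : ∀ a b, ∑ i, ∑ j, (P i a * P j b) • sff f x i j = B a b := fun a b => by rw [hB]
  have hmcv : mcv f x = B 0 0 + B 1 1 := by
    have h1 := htr (fun i j => sff f x i j)
    unfold mcv
    rw [h1, Fin.sum_univ_two, hBab, hBab]
  have hnsq : nsq f x = ‖B 0 0‖ ^ 2 + ‖B 0 1‖ ^ 2 + ‖B 1 0‖ ^ 2 + ‖B 1 1‖ ^ 2 := by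
    have h1 := hbil (fun i j => sff f x i j) (fun i j => sff f x i j)
    unfold nsq
    rw [h1]
    simp only [hBab, real_inner_self_eq_norm_sq]
    simp only [Fin.sum_univ_two]
    ring
  have hG : ∀ i j, (gram f x)⁻¹ i j = P i 0 * P j 0 + P i 1 * P j 1 := by
    intro i j
    rw [hP, Matrix.mul_apply, Fin.sum_univ_two, Matrix.transpose_apply, Matrix.transpose_apply]
  obtain ⟨φ, hφ⟩ : ∃ φ : Fin 2 → ℝ, φ = fun i => (inner ℝ e (dv1 f x i) : ℝ) := ⟨_, rfl⟩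
  have hφi : ∀ i, (inner ℝ e (dv1 f x i) : ℝ) = φ i := fun i => by rw [hφ]
  obtain ⟨A, hA⟩ : ∃ A : Fin 2 → Fin 2 → ℝ, A = fun i j => (inner ℝ e (sff f x i j) : ℝ) := ⟨_, rfl⟩
  have hAij : ∀ i j, (inner ℝ e (sff f x i j) : ℝ) = A i j := fun i j => by rw [hA]
  have hBe : ∀ a b, (inner ℝ e (B a b) : ℝ) = P 0 a * P 0 b * A 0 0 + P 0 a * P 1 b * A 0 1 +
      (P 1 a * P 0 b * A 1 0 + P 1 a * P 1 b * A 1 1) := by
    intro a b
    rw [← hBab]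
    simp only [Fin.sum_univ_two, inner_add_right, real_inner_smul_right, hAij]
  simp only [hφi, hAij, Fin.sum_univ_two, hG] at hD
  -- the norm of the gradient
  obtain ⟨E, hE⟩ : ∃ E : Fin 2 → EE N, E = fun a => ∑ i, P i a • dv1 f x i := ⟨_, rfl⟩
  have hEo : ∀ a b, (inner ℝ (E a) (E b) : ℝ) = if a = b then 1 else 0 := fun a b => by
    rw [hE]; exact hort a b
  have hgr : ∑ k, ∑ m, ((gram f x)⁻¹ k m * Dk k) • dv1 f x m =
      (P 0 0 * Dk 0 + P 1 0 * Dk 1) • E 0 + (P 0 1 * Dk 0 + P 1 1 * Dk 1) • E 1 := by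
    rw [hE]
    simp only [Fin.sum_univ_two, hG]
    module
  have hnorm : ‖∑ k, ∑ m, ((gram f x)⁻¹ k m * Dk k) • dv1 f x m‖ ^ 2 =
      (P 0 0 * Dk 0 + P 1 0 * Dk 1) ^ 2 + (P 0 1 * Dk 0 + P 1 1 * Dk 1) ^ 2 := by
    rw [hgr, ← real_inner_self_eq_norm_sq]
    simp only [inner_add_left, inner_add_right, real_inner_smul_left, real_inner_smul_right, hEo]
    simp
    ring
  -- bounds
  have hq := quad_eq f x hNR hLI e
  have hp := pyth f x hNR hLI e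
  simp only [hφi, hG, Fin.sum_univ_two] at hq
  have hv : (P 0 0 * φ 0 + P 1 0 * φ 1) ^ 2 + (P 0 1 * φ 0 + P 1 1 * φ 1) ^ 2 ≤ 1 := by
    rw [he] at hp
    nlinarith [sq_nonneg ‖nrm f x e‖]
  have hcs : ∀ X : EE N, (inner ℝ e X : ℝ) ^ 2 ≤ ‖X‖ ^ 2 := by
    intro X
    have h1 := abs_real_inner_le_norm e X
    rw [he, one_mul] at h1
    rw [← sq_abs (inner ℝ e X : ℝ)]
    exact pow_le_pow_left₀ (abs_nonneg _) h1 2
  have hr : ((inner ℝ e (B 0 0) : ℝ) + inner ℝ e (B 1 1) + 2 * inner ℝ (f x) e) ^ 2 ≤ ε ^ 2 := by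
    have h1 : (inner ℝ e (B 0 0) : ℝ) + inner ℝ e (B 1 1) + 2 * inner ℝ (f x) e =
        inner ℝ e (mcv f x + (2 : ℝ) • f x) := by
      rw [hmcv, inner_add_right, inner_add_right, real_inner_smul_right, real_inner_comm (f x) e]
    rw [h1]
    refine (hcs _).trans ?_
    exact pow_le_pow_left₀ (norm_nonneg _) hH 2
  have hh : 2 * ((((inner ℝ e (B 0 0) : ℝ) - inner ℝ e (B 1 1)) / 2) ^ 2 +
      (inner ℝ e (B 0 1) : ℝ) ^ 2 + (inner ℝ e (B 1 0) : ℝ) ^ 2 +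
      (((inner ℝ e (B 1 1) : ℝ) - inner ℝ e (B 0 0)) / 2) ^ 2) ≤ ε ^ 2 := by
    have h1 := hcs (B 0 0 - B 1 1)
    have h2 := hcs (B 0 1)
    have h3 := hcs (B 1 0)
    rw [inner_sub_right] at h1
    rw [hnsq, hmcv] at hθ
    have h4 := norm_sub_sq_real (B 0 0) (B 1 1)
    have h5 := norm_add_sq_real (B 0 0) (B 1 1)
    nlinarith
  have hfin := alg (P 0 0 * φ 0 + P 1 0 * φ 1) (P 0 1 * φ 0 + P 1 1 * φ 1)
    (((inner ℝ e (B 0 0) : ℝ) - inner ℝ e (B 1 1)) / 2) (inner ℝ e (B 0 1))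
    (inner ℝ e (B 1 0)) (((inner ℝ e (B 1 1) : ℝ) - inner ℝ e (B 0 0)) / 2)
    ((inner ℝ e (B 0 0) : ℝ) + inner ℝ e (B 1 1) + 2 * inner ℝ (f x) e) ε hv hh hr
  have e1 : P 0 0 * Dk 0 + P 1 0 * Dk 1 =
      2 * ((P 0 0 * φ 0 + P 1 0 * φ 1) * (((inner ℝ e (B 0 0) : ℝ) - inner ℝ e (B 1 1)) / 2) +
        (P 0 1 * φ 0 + P 1 1 * φ 1) * inner ℝ e (B 0 1)) +
      (P 0 0 * φ 0 + P 1 0 * φ 1) *
        ((inner ℝ e (B 0 0) : ℝ) + inner ℝ e (B 1 1) + 2 * inner ℝ (f x) e) := by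
    rw [hD 0, hD 1, hBe, hBe, hBe]
    ring
  have e2 : P 0 1 * Dk 0 + P 1 1 * Dk 1 =
      2 * ((P 0 0 * φ 0 + P 1 0 * φ 1) * (inner ℝ e (B 1 0) : ℝ) +
        (P 0 1 * φ 0 + P 1 1 * φ 1) * (((inner ℝ e (B 1 1) : ℝ) - inner ℝ e (B 0 0)) / 2)) +
      (P 0 1 * φ 0 + P 1 1 * φ 1) *
        ((inner ℝ e (B 0 0) : ℝ) + inner ℝ e (B 1 1) + 2 * inner ℝ (f x) e) := by
    rw [hD 0, hD 1, hBe, hBe, hBe]
    ring
  rw [← e1, ← e2, ← hnorm] at hfin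
  exact abs_le_of_sq_le_sq' hfin (by positivity) |>.2

/-- smoothness of the flow at a fixed time in the chart of `p` -/
private theorem loc_smooth (hI2 : StI2J) {n N : ℕ} {M : Type} [TopologicalSpace M] [ChartedSpace (EE n) M]
    [IsManifold (𝓡 n) ∞ M] {S : Set ℝ} {F : M → ℝ → EE N} (hF : IsImmJ (n := n) S F) {t : ℝ} (ht : t ∈ S)
    (p q : M) (hq : q ∈ (chartAt (EE n) p).source) :
    ContDiffAt ℝ ∞ (loc (n := n) F p t) (chartAt (EE n) p q) := by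
  have h := hI2 n N M S F hF p
  have hmem : (chartAt (EE n) p).target ×ˢ S ∈ 𝓝 (chartAt (EE n) p q, t) :=
    prod_mem_nhds ((chartAt (EE n) p).open_target.mem_nhds ((chartAt (EE n) p).map_source hq))
      (hF.op.mem_nhds ht)
  have h2 : ContDiffAt ℝ ∞ (fun z : EE n × ℝ => F ((chartAt (EE n) p).symm z.1) z.2)
      (chartAt (EE n) p q, t) := h.contDiffAt hmem
  have h4 : ContDiffAt ℝ ∞ (fun y : EE n => (y, t)) (chartAt (EE n) p q) :=
    contDiffAt_id.prodMk contDiffAt_const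
  exact h2.comp (chartAt (EE n) p q) h4

theorem hGRE (hFR : StFR) (hNR : StNR) (hI2J : StI2J) (hI3J : StI3J)
    (hSM : Helper35.PI.StSM) : StGRE := by
  intro N M _ _ _ J F hF t ht ε hε hH hθ e he g hg
  have hsm : ∀ q : M, ContDiffAt ℝ ∞ (loc (n := 2) F q t) (chartAt (EE 2) q q) := fun q =>
    loc_smooth hI2J hF ht q q (mem_chart_source (EE 2) q)
  have hne : ((⊤ : ℕ∞) : WithTop ℕ∞) ≠ 0 := by simp
  have hLI : ∀ q : M, LI (loc (n := 2) F q t) (chartAt (EE 2) q q) := fun q => hF.imm q t ht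
  have hgd : ∀ q, gdM 2 F t (fun p => (inner ℝ (F p t) e : ℝ)) q =
      e - nrm (loc (n := 2) F q t) (chartAt (EE 2) q q) e := by
    intro q
    rw [← grad_chart _ _ e ((hsm q).differentiableAt hne)]
    rfl
  have hgl : ∀ p q : M, q ∈ (chartAt (EE 2) p).source →
      g q = gl (loc (n := 2) F p t) e (chartAt (EE 2) p q) := by
    intro p q hq
    have h3 := hI3J 2 N M J F hF p q t ht hq
    have hun := nrm_unique hNR (loc (n := 2) F q t) (loc (n := 2) F p t) (chartAt (EE 2) q q)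
      (chartAt (EE 2) p q) e (hLI q) h3.1 h3.2.2.2.2
    have hFq : loc (n := 2) F p t (chartAt (EE 2) p q) = F q t := by
      unfold loc
      rw [(chartAt (EE 2) p).left_inv hq]
    rw [hg]
    simp only [gl]
    rw [hgd, hun, hFq]
  refine ⟨?_, ?_, ?_⟩
  · intro p
    have hp : p ∈ (chartAt (EE 2) p).source := mem_chart_source (EE 2) p
    have hv := (gl_deriv hNR hSM _ _ e (hsm p) (hLI p)).1
    have hv1 : ContMDiffAt 𝓘(ℝ, EE 2) 𝓘(ℝ, ℝ) 1 (gl (loc (n := 2) F p t) e)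
        (chartAt (EE 2) p p) := hv.contMDiffAt
    have hc : ContMDiffAt (𝓡 2) (𝓡 2) 1 (chartAt (EE 2) p) p := by
      have := (contMDiffOn_chart (I := 𝓡 2) (n := ∞) (H := EE 2) (x := p)).contMDiffAt
        ((chartAt (EE 2) p).open_source.mem_nhds hp)
      exact this.of_le one_le_inf
    have h := ContMDiffAt.comp p (hv1 : ContMDiffAt (𝓡 2) 𝓘(ℝ, ℝ) 1
      (gl (loc (n := 2) F p t) e) (chartAt (EE 2) p p)) hc
    refine h.congr_of_eventuallyEq ?_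
    filter_upwards [(chartAt (EE 2) p).open_source.mem_nhds hp] with q hq
    exact hgl p q hq
  · intro q
    have hxt : chartAt (EE 2) q q ∈ (chartAt (EE 2) q).target :=
      (chartAt (EE 2) q).map_source (mem_chart_source (EE 2) q)
    have he' : (fun y => g ((chartAt (EE 2) q).symm y)) =ᶠ[𝓝 (chartAt (EE 2) q q)]
        gl (loc (n := 2) F q t) e := by
      filter_upwards [(chartAt (EE 2) q).open_target.mem_nhds hxt] with y hy
      rw [hgl q _ ((chartAt (EE 2) q).map_target hy), (chartAt (EE 2) q).right_inv hy]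
    have hFq : loc (n := 2) F q t (chartAt (EE 2) q q) = F q t := by
      unfold loc
      rw [(chartAt (EE 2) q).left_inv (mem_chart_source (EE 2) q)]
    have hb := grad_bound hNR hFR (loc (n := 2) F q t) (chartAt (EE 2) q q) e (hLI q) ε he hε
      (by rw [hFq]; exact hH q) (hθ q)
      (fun k => fderiv ℝ (gl (loc (n := 2) F q t) e) (chartAt (EE 2) q q) (ee k))
      (gl_deriv hNR hSM _ _ e (hsm q) (hLI q)).2
    unfold gdM
    rw [he'.fderiv_eq]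
    exact hb
  · intro q
    have hN := hNR 2 N _ _ (hLI q)
    rw [hgd]
    refine ⟨hN.2.2.1 e, ?_⟩
    intro w hw
    have h1 : (inner ℝ (nrm (loc (n := 2) F q t) (chartAt (EE 2) q q) e) w : ℝ) = 0 := by
      rw [hN.2.2.2.2.2.2.1, hN.2.1 w hw, inner_zero_right]
    rw [inner_sub_left, h1, sub_zero]

end Helper42.MS.GRE
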