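import Pool.Agent.Helper35.MS.StGB

/-!
# Project MS (MP_925021_gt), module GRS: curvature of the unit sphere of `ℝ³`

The computation of the first two derivatives of the inverse stereographic projection at the centre
follows `Pool/Agent/Helper93/MCF/Ster.lean` and `Geo.lean`.
-/

set_option autoImplicit false

namespace Helper42.MS

open Helper35.MS Helper35.PI Helper35.PI2 Helper32.CL
open scoped ContDiff Manifold Topology ENNReal BigOperators RealInnerProductSpace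
open MeasureTheory Set Filter Metric

section S

variable {E : Type} [NormedAddCommGroup E] [InnerProductSpace ℝ E]

private lemma hq (w : E) : HasFDerivAt (fun w : E => ‖w‖ ^ 2) ((2 : ℝ) • innerSL ℝ w) w := by
  have := (hasStrictFDerivAt_norm_sq w).hasFDerivAt
  convert this using 1
  ext v
  simp

/-- the derivative of the inverse stereographic map -/
noncomputable def sD (v₀ w : E) : E →L[ℝ] E :=
  (‖w‖ ^ 2 + 4)⁻¹ • ((4 : ℝ) • ContinuousLinearMap.id ℝ E + ((2 : ℝ) • innerSL ℝ w).smulRight v₀) +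
    ((-((‖w‖ ^ 2 + 4) ^ 2)⁻¹) • ((2 : ℝ) • innerSL ℝ w)).smulRight
      ((4 : ℝ) • w + (‖w‖ ^ 2 - 4) • v₀)

lemma hasFDerivAt_ster (v₀ w : E) : HasFDerivAt (stereoInvFunAux v₀) (sD v₀ w) w := by
  have hpos : ‖w‖ ^ 2 + 4 ≠ 0 := by positivity
  have h1 : HasFDerivAt (fun w : E => (‖w‖ ^ 2 + 4)⁻¹)
      ((-((‖w‖ ^ 2 + 4) ^ 2)⁻¹) • ((2 : ℝ) • innerSL ℝ w)) w := by
    have h := (hasDerivAt_inv hpos).comp_hasFDerivAt w ((hq w).add_const 4)
    exact h
  have h2 : HasFDerivAt (fun w : E => (4 : ℝ) • w + (‖w‖ ^ 2 - 4) • v₀)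
      ((4 : ℝ) • ContinuousLinearMap.id ℝ E + ((2 : ℝ) • innerSL ℝ w).smulRight v₀) w := by
    have h3 := ((hq w).sub_const 4).smul_const v₀
    have h4 := (hasFDerivAt_id (𝕜 := ℝ) w).const_smul (4 : ℝ)
    exact h4.add h3
  exact h1.smul h2

lemma ster_zero (v₀ : E) : stereoInvFunAux v₀ (0 : E) = -v₀ := by
  simp [stereoInvFunAux]

lemma sD_zero (v₀ : E) : sD v₀ (0 : E) = ContinuousLinearMap.id ℝ E := by
  ext b
  simp [sD]

/-- derivative of the derivative along a line -/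
lemma hasDerivAt_sD (v₀ a b : E) :
    HasDerivAt (fun s : ℝ => sD v₀ (s • a) b) (⟪a, b⟫ • v₀) 0 := by
  have hn : HasDerivAt (fun s : ℝ => ‖s • a‖ ^ 2) 0 0 := by
    have h : HasDerivAt (fun s : ℝ => s ^ 2 * ‖a‖ ^ 2) ((((2 : ℕ) : ℝ) * (0 : ℝ) ^ (2 - 1)) * ‖a‖ ^ 2) 0 :=
      (hasDerivAt_pow 2 (0 : ℝ)).mul_const _
    simp only [Nat.add_one_sub_one, pow_one, mul_zero, zero_mul] at h
    convert h using 2
    rw [norm_smul, mul_pow, Real.norm_eq_abs, sq_abs]
  have hα : HasDerivAt (fun s : ℝ => (‖s • a‖ ^ 2 + 4)⁻¹) 0 0 :=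
    ((hn.add_const 4).inv (by positivity)).congr_deriv (by simp)
  have hβ : HasDerivAt (fun s : ℝ => 2 * (s * ⟪a, b⟫)) (2 * ⟪a, b⟫) 0 :=
    (((hasDerivAt_id (0 : ℝ)).mul_const ⟪a, b⟫).const_mul 2).congr_deriv (by simp)
  have hγ : HasDerivAt (fun s : ℝ => (-((‖s • a‖ ^ 2 + 4) ^ 2)⁻¹) * (2 * (s * ⟪a, b⟫)))
      (-(1 / 8) * ⟪a, b⟫) 0 := by
    have h1 : HasDerivAt (fun s : ℝ => (-((‖s • a‖ ^ 2 + 4) ^ 2)⁻¹)) 0 0 :=
      ((((hn.add_const 4).fun_pow 2).inv (by positivity)).neg).congr_deriv (by simp)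
    refine (h1.mul hβ).congr_deriv ?_
    norm_num
    ring
  have hP : HasDerivAt (fun s : ℝ => (4 : ℝ) • (s • a) + (‖s • a‖ ^ 2 - 4) • v₀) ((4 : ℝ) • a) 0 := by
    have h1 : HasDerivAt (fun s : ℝ => (4 : ℝ) • (s • a)) ((4 : ℝ) • a) 0 :=
      (((hasDerivAt_id (0 : ℝ)).smul_const a).const_smul (4 : ℝ)).congr_deriv (by simp)
    have h2 : HasDerivAt (fun s : ℝ => (‖s • a‖ ^ 2 - 4) • v₀) ((0 : ℝ) • v₀) 0 :=
      (hn.sub_const 4).smul_const v₀
    exact (h1.add h2).congr_deriv (by simp)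
  have hM : HasDerivAt (fun s : ℝ => (‖s • a‖ ^ 2 + 4)⁻¹ • ((4 : ℝ) • b + (2 * (s * ⟪a, b⟫)) • v₀))
      ((1 / 2 * ⟪a, b⟫) • v₀) 0 := by
    have h1 : HasDerivAt (fun s : ℝ => ((4 : ℝ) • b + (2 * (s * ⟪a, b⟫)) • v₀))
        ((2 * ⟪a, b⟫) • v₀) 0 := (hβ.smul_const v₀).const_add ((4 : ℝ) • b)
    refine (hα.smul h1).congr_deriv ?_
    simp [smul_smul]
    congr 1
    ring
  have e1 : (fun s : ℝ => sD v₀ (s • a) b) =
      fun s : ℝ => (‖s • a‖ ^ 2 + 4)⁻¹ • ((4 : ℝ) • b + (2 * (s * ⟪a, b⟫)) • v₀) +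
        ((-((‖s • a‖ ^ 2 + 4) ^ 2)⁻¹) * (2 * (s * ⟪a, b⟫))) •
          ((4 : ℝ) • (s • a) + (‖s • a‖ ^ 2 - 4) • v₀) := by
    funext s
    simp [sD, inner_smul_left]
  rw [e1]
  refine (hM.add (hγ.smul hP)).congr_deriv ?_
  simp [smul_smul]
  rw [← add_smul]
  congr 1
  ring

end S

/-- the coordinates of the tangent plane -/
noncomputable def Uu (p : S2) : (ℝ ∙ ((-p : S2) : EE 3))ᗮ ≃ₗᵢ[ℝ] EE 2 :=
  (OrthonormalBasis.fromOrthogonalSpanSingleton 2 (ne_zero_of_mem_unit_sphere (-p))).repr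

/-- inclusion of the tangent plane -/
noncomputable def io (p : S2) : EE 2 →L[ℝ] EE 3 :=
  ((ℝ ∙ ((-p : S2) : EE 3))ᗮ).subtypeL.comp
    ((Uu p).symm.toContinuousLinearEquiv : EE 2 →L[ℝ] (ℝ ∙ ((-p : S2) : EE 3))ᗮ)

lemma norm_p (p : S2) : ‖(p : EE 3)‖ = 1 := by simpa using p.2

lemma inner_pp (p : S2) : ⟪(p : EE 3), (p : EE 3)⟫ = 1 := by
  rw [real_inner_self_eq_norm_sq, norm_p]; norm_num

lemma inner_io (p : S2) (x y : EE 2) : ⟪io p x, io p y⟫ = ⟪x, y⟫ := by
  have h := (Uu p).symm.inner_map_map x y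
  rw [← h]
  rfl

lemma inner_io_p (p : S2) (x : EE 2) : ⟪io p x, (p : EE 3)⟫ = 0 := by
  have h := ((Uu p).symm x).2
  rw [Submodule.mem_orthogonal_singleton_iff_inner_left] at h
  have h2 : ⟪io p x, ((-p : S2) : EE 3)⟫ = 0 := h
  rw [coe_neg_sphere, inner_neg_right] at h2
  linarith

/-- the inverse chart at `p` -/
lemma chart_symm (p : S2) (x : EE 2) :
    (((chartAt (EE 2) p).symm x : S2) : EE 3) =
      stereoInvFunAux (((-p : S2) : EE 3)) (io p x) := by
  have h := stereographic'_symm_apply (n := 2) (-p) x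
  have e : (((chartAt (EE 2) p).symm x : S2) : EE 3) = ((stereographic' 2 (-p)).symm x : EE 3) := rfl
  rw [e, h]
  simp only [stereoInvFunAux_apply, smul_add]
  rfl

lemma ster_neg (p : S2) : stereoInvFunAux (((-p : S2) : EE 3)) (0 : EE 3) = (p : EE 3) := by
  rw [ster_zero, coe_neg_sphere, neg_neg]

lemma ctr_eq (p : S2) : chartAt (EE 2) p p = 0 := by
  have h1 : ((chartAt (EE 2) p).symm (0 : EE 2) : S2) = p := by
    apply Subtype.ext
    rw [chart_symm, map_zero, ster_neg]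
  have h2 : (0 : EE 2) ∈ (chartAt (EE 2) p).target := by
    have : (chartAt (EE 2) p).target = univ := stereographic'_target (-p)
    rw [this]; trivial
  have h3 := (chartAt (EE 2) p).right_inv h2
  rw [h1] at h3
  exact h3

lemma loc_inS (p : S2) (t : ℝ) : loc (n := 2) inS p t =
    fun x => stereoInvFunAux (((-p : S2) : EE 3)) (io p x) := by
  funext x
  exact chart_symm p x

lemma contDiff_loc (p : S2) (t : ℝ) : ContDiff ℝ ∞ (loc (n := 2) inS p t) := by
  rw [loc_inS]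
  exact contDiff_stereoInvFunAux.comp (io p).contDiff

lemma fderiv_loc (p : S2) (t : ℝ) (x v : EE 2) : fderiv ℝ (loc (n := 2) inS p t) x v =
    sD (((-p : S2) : EE 3)) (io p x) (io p v) := by
  rw [loc_inS]
  have h := (hasFDerivAt_ster (((-p : S2) : EE 3)) (io p x)).comp x (io p).hasFDerivAt
  have h2 : fderiv ℝ (fun x => stereoInvFunAux (((-p : S2) : EE 3)) (io p x)) x = _ := h.fderiv
  rw [h2]
  rfl

lemma dv1_loc (p : S2) (t : ℝ) (i : Fin 2) : dv1 (loc (n := 2) inS p t) 0 i = io p (ee i) := by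
  unfold dv1
  rw [fderiv_loc, map_zero, sD_zero]
  rfl

lemma inner_ee (i j : Fin 2) : ⟪(ee i : EE 2), ee j⟫ = if i = j then 1 else 0 := by
  unfold ee
  rw [EuclideanSpace.inner_single_left]
  simp [eq_comm]

lemma dv2_loc (p : S2) (t : ℝ) (i j : Fin 2) : dv2 (loc (n := 2) inS p t) 0 i j =
    -((if i = j then (1 : ℝ) else 0) • (p : EE 3)) := by
  unfold dv2
  have hd : DifferentiableAt ℝ (fun y => fderiv ℝ (loc (n := 2) inS p t) y (ee j)) 0 := by
    have h1 : ContDiff ℝ 1 (fderiv ℝ (loc (n := 2) inS p t)) :=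
      (contDiff_loc p t).fderiv_right (by norm_cast)
    have h2 : Differentiable ℝ (fderiv ℝ (loc (n := 2) inS p t)) := h1.differentiable (by norm_num)
    exact (h2 0).clm_apply (differentiableAt_const _)
  have h3 : HasDerivAt (fun s : ℝ => (fun y => fderiv ℝ (loc (n := 2) inS p t) y (ee j)) (s • ee i))
      (fderiv ℝ (fun y => fderiv ℝ (loc (n := 2) inS p t) y (ee j)) 0 (ee i)) 0 := by
    have h4 : HasDerivAt (fun s : ℝ => s • (ee i : EE 2)) (ee i) 0 := by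
      have := (hasDerivAt_id (0 : ℝ)).smul_const (ee i : EE 2)
      simpa using this
    have h5 : HasFDerivAt (fun y => fderiv ℝ (loc (n := 2) inS p t) y (ee j))
        (fderiv ℝ (fun y => fderiv ℝ (loc (n := 2) inS p t) y (ee j)) 0) ((0 : ℝ) • (ee i : EE 2)) := by
      rw [zero_smul]
      exact hd.hasFDerivAt
    exact h5.comp_hasDerivAt (0 : ℝ) h4
  have h6 : HasDerivAt (fun s : ℝ => (fun y => fderiv ℝ (loc (n := 2) inS p t) y (ee j)) (s • ee i))
      (⟪io p (ee i), io p (ee j)⟫ • ((-p : S2) : EE 3)) 0 := by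
    have h7 := hasDerivAt_sD (((-p : S2) : EE 3)) (io p (ee i)) (io p (ee j))
    have e : (fun s : ℝ => (fun y => fderiv ℝ (loc (n := 2) inS p t) y (ee j)) (s • ee i)) =
        fun s : ℝ => sD (((-p : S2) : EE 3)) (s • io p (ee i)) (io p (ee j)) := by
      funext s
      simp only [fderiv_loc, map_smul]
    rw [e]
    exact h7
  rw [h3.unique h6, inner_io, inner_ee, coe_neg_sphere, smul_neg]

lemma gram_loc (p : S2) (t : ℝ) : gram (loc (n := 2) inS p t) 0 = 1 := by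
  ext i j
  show (inner ℝ (dv1 (loc (n := 2) inS p t) 0 i) (dv1 (loc (n := 2) inS p t) 0 j) : ℝ) = _
  rw [dv1_loc, dv1_loc, inner_io, inner_ee, Matrix.one_apply]

lemma sff_loc (p : S2) (t : ℝ) (i j : Fin 2) : sff (loc (n := 2) inS p t) 0 i j =
    -((if i = j then (1 : ℝ) else 0) • (p : EE 3)) := by
  unfold sff nrm
  have h : ∀ k, (inner ℝ (dv2 (loc (n := 2) inS p t) 0 i j) (dv1 (loc (n := 2) inS p t) 0 k) : ℝ) = 0 := by
    intro k
    rw [dv2_loc, dv1_loc, inner_neg_left, inner_smul_left, real_inner_comm, inner_io_p]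
    simp
  simp only [h, mul_zero, zero_smul, Finset.sum_const_zero, sub_zero]
  exact dv2_loc p t i j

theorem hGRS (hNR : StNR) (hFR : StFR) : StGRS := by
  refine ⟨⟨isOpen_univ, ?_, ?_⟩, ?_⟩
  · have h : ContMDiff ((𝓡 2).prod 𝓘(ℝ, ℝ)) 𝓘(ℝ, EE 3) ∞ (fun z : S2 × ℝ => inS z.1 z.2) :=
      (contMDiff_coe_sphere (n := 2) (E := EE 3) (m := ∞)).comp contMDiff_fst
    exact h.contMDiffOn
  · intro p t _
    rw [ctr_eq]
    have e : (fun i : Fin 2 => dv1 (loc (n := 2) inS p t) 0 i) = fun i => io p (ee i) := by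
      funext i; exact dv1_loc p t i
    rw [e]
    have ho : Orthonormal ℝ (fun i : Fin 2 => io p (ee i)) := by
      rw [orthonormal_iff_ite]
      intro i j
      rw [inner_io, inner_ee]
    exact ho.linearIndependent
  · intro q t
    have hH : HH (n := 2) inS q t = mcv (loc (n := 2) inS q t) 0 := by
      unfold HH
      rw [ctr_eq]
    have hA : AA (n := 2) inS q t = nsq (loc (n := 2) inS q t) 0 := by
      unfold AA
      rw [ctr_eq]
    rw [hH, hA]
    unfold mcv nsq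
    rw [gram_loc, inv_one]
    simp only [sff_loc, Fin.sum_univ_two, Matrix.one_apply, inner_neg_left, inner_neg_right,
      inner_smul_left, inner_smul_right, inner_pp]
    constructor
    · simp
      module
    · simp
      norm_num

end Helper42.MS
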