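import Pool.Agent.Helper35.MS.StF

/-!
# Project MS (MP_925021_gt), module LMF: the flow shrinks to a point
-/

set_option autoImplicit false

namespace Helper42.MS

open Helper35.MS Helper35.PI Helper35.PI2 Helper32.CL
open scoped ContDiff Manifold Topology ENNReal BigOperators
open MeasureTheory Set Filter

/-- minus the remaining distance -/
private noncomputable def Ga (T C α s : ℝ) : ℝ :=
  -(2 * Real.sqrt (T - s)) - 2 * C * (T - s) ^ (α + 1 / 2)

private lemma Ga_deriv (T C α s : ℝ) (hs : s < T) :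
    HasDerivAt (Ga T C α) (1 / Real.sqrt (T - s) + 2 * C * (α + 1 / 2) * (T - s) ^ (α - 1 / 2))
      s := by
  have h0 : 0 < T - s := by linarith
  have h1 : HasDerivAt (fun s : ℝ => T - s) (-1) s := by
    simpa using (hasDerivAt_id s).const_sub T
  have h2 : HasDerivAt (fun s : ℝ => Real.sqrt (T - s)) (-1 / (2 * Real.sqrt (T - s))) s :=
    h1.sqrt h0.ne'
  have h3 : HasDerivAt (fun s : ℝ => (T - s) ^ (α + 1 / 2))
      (-1 * (α + 1 / 2) * (T - s) ^ (α + 1 / 2 - 1)) s := h1.rpow_const (Or.inl h0.ne')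
  have h4 := (h2.const_mul 2).neg.sub (h3.const_mul (2 * C))
  have hr : 0 < Real.sqrt (T - s) := Real.sqrt_pos.mpr h0
  have e : -(2 * (-1 / (2 * Real.sqrt (T - s)))) -
      2 * C * (-1 * (α + 1 / 2) * (T - s) ^ (α + 1 / 2 - 1)) =
      1 / Real.sqrt (T - s) + 2 * C * (α + 1 / 2) * (T - s) ^ (α - 1 / 2) := by
    have e1 : α + 1 / 2 - 1 = α - 1 / 2 := by ring
    rw [e1]
    field_simp
    ring
  rw [e] at h4
  exact h4

private lemma speed (C α r2 h : ℝ) (hC : 0 < C) (hα : 0 < α) (hr : 0 < r2) (hh : 0 ≤ h)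
    (hY : r2 * h ^ 2 ≤ 1 + C * r2 ^ α) :
    h ≤ 1 / Real.sqrt r2 + 2 * C * (α + 1 / 2) * r2 ^ (α - 1 / 2) := by
  set r := Real.sqrt r2 with hrd
  have hr0 : 0 < r := Real.sqrt_pos.mpr hr
  have hrr : r ^ 2 = r2 := Real.sq_sqrt hr.le
  have hu : 0 ≤ C * r2 ^ α := by positivity
  have h1 : (r * h) ^ 2 ≤ (1 + C * r2 ^ α) ^ 2 := by
    calc (r * h) ^ 2 = r2 * h ^ 2 := by rw [mul_pow, hrr]
      _ ≤ 1 + C * r2 ^ α := hY
      _ ≤ (1 + C * r2 ^ α) ^ 2 := by nlinarith
  have h2 : r * h ≤ 1 + C * r2 ^ α := (abs_le_of_sq_le_sq' h1 (by positivity)).2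
  have h3 : r2 ^ (α - 1 / 2) = r2 ^ α / r := by
    rw [Real.rpow_sub hr, hrd, Real.sqrt_eq_rpow]
  have h4 : h ≤ (1 + C * r2 ^ α) / r := by
    rw [le_div_iff₀ hr0]
    linarith
  have h5 : (1 + C * r2 ^ α) / r = 1 / r + C * (r2 ^ α / r) := by ring
  have h6 : 0 ≤ r2 ^ α / r := by positivity
  rw [h3]
  rw [h5] at h4
  have h7 : C * (r2 ^ α / r) ≤ 2 * C * (α + 1 / 2) * (r2 ^ α / r) := by
    have : 0 ≤ C * (r2 ^ α / r) := by positivity
    nlinarith [mul_nonneg hα.le this]
  linarith

/-- LMF. The flow shrinks to a point. -/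
theorem hLMF (hDMJ : StDMJ) (_hMUJ : StMUJ) : StLMF := by
  intro N M _ _ _ _ _ _ _ _ T F c χ δ hD C α ts hC hα hts hyp
  have hT0 := hD.T0
  have hJ : ∀ t ∈ Ico ts T, t ∈ Ioo 0 T := fun t ht => ⟨hts.1.trans_le ht.1, ht.2⟩
  -- distance along the flow
  have hdist : ∀ q : M, ∀ t s : ℝ, ts ≤ t → t ≤ s → s < T →
      ‖F q s - F q t‖ ≤ Ga T C α s - Ga T C α t := by
    intro q t s h1 h2 h3
    have hin : ∀ x ∈ Icc t s, x ∈ Ico ts T := fun x hx => ⟨h1.trans hx.1, hx.2.trans_lt h3⟩
    have key := image_norm_le_of_norm_deriv_right_le_deriv_boundary'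
      (f := fun x => F q x - F q t) (f' := fun x => HH (n := 2) F q x) (a := t) (b := s)
      (B := fun x => Ga T C α x - Ga T C α t)
      (B' := fun x => 1 / Real.sqrt (T - x) + 2 * C * (α + 1 / 2) * (T - x) ^ (α - 1 / 2))
      (fun x hx => (((hD.su.mcf.flow q x (hJ x (hin x hx))).sub_const
        (F q t)).continuousAt).continuousWithinAt)
      (fun x hx => (((hD.su.mcf.flow q x (hJ x (hin x (Ico_subset_Icc_self hx)))).sub_const
        (F q t)).hasDerivWithinAt))
      (by simp)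
      (fun x hx => (((Ga_deriv T C α x (hin x hx).2).sub_const
        (Ga T C α t)).continuousAt).continuousWithinAt)
      (fun x hx => ((Ga_deriv T C α x (hin x (Ico_subset_Icc_self hx)).2).sub_const
        (Ga T C α t)).hasDerivWithinAt)
      (fun x hx => by
        have hx' := hin x (Ico_subset_Icc_self hx)
        have hx2 : 0 < T - x := by linarith [hx'.2]
        refine speed C α (T - x) _ hC hα hx2 (norm_nonneg _) ?_
        have h4 := (hyp x hx').2.2 q
        rw [abs_le] at h4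
        have h5 := h4.2
        unfold YF at h5
        linarith)
    exact key ⟨h2, le_rfl⟩
  have hGneg : ∀ s, s < T → Ga T C α s ≤ 0 := by
    intro s hs
    have h0 : 0 < T - s := by linarith
    unfold Ga
    have h1 : 0 ≤ Real.sqrt (T - s) := Real.sqrt_nonneg _
    have h2 : 0 ≤ C * (T - s) ^ (α + 1 / 2) := by positivity
    linarith
  -- the sequence of times
  set u : ℕ → ℝ := fun n => T - (T - ts) / ((n : ℝ) + 1) with hu
  have hTts : 0 < T - ts := by linarith [hts.2]
  have hu1 : ∀ n, ts ≤ u n := by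
    intro n
    have hn : (0 : ℝ) < (n : ℝ) + 1 := by positivity
    have : (T - ts) / ((n : ℝ) + 1) ≤ T - ts := by
      rw [div_le_iff₀ hn]
      nlinarith [Nat.cast_nonneg (α := ℝ) n]
    simp only [hu]
    linarith
  have hu2 : ∀ n, u n < T := by
    intro n
    have : 0 < (T - ts) / ((n : ℝ) + 1) := by positivity
    simp only [hu]
    linarith
  have hu3 : ∀ n m, n ≤ m → u n ≤ u m := by
    intro n m h
    simp only [hu]
    have : (T - ts) / ((m : ℝ) + 1) ≤ (T - ts) / ((n : ℝ) + 1) := by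
      apply div_le_div_of_nonneg_left hTts.le (by positivity)
      have : (n : ℝ) ≤ m := by exact_mod_cast h
      linarith
    linarith
  have hu4 : Tendsto (fun n => T - u n) atTop (𝓝 0) := by
    have h1 : (fun n => T - u n) = fun n : ℕ => (T - ts) * (1 / ((n : ℝ) + 1)) := by
      funext n
      simp only [hu]
      ring
    rw [h1]
    have := tendsto_one_div_add_atTop_nhds_zero_nat (𝕜 := ℝ) |>.const_mul (T - ts)
    rwa [mul_zero] at this
  have hG0 : Tendsto (fun n => Ga T C α (u n)) atTop (𝓝 0) := by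
    unfold Ga
    have h1 : Tendsto (fun n => Real.sqrt (T - u n)) atTop (𝓝 0) := by
      have := (Real.continuous_sqrt.tendsto 0).comp hu4
      rwa [Real.sqrt_zero] at this
    have h2 : Tendsto (fun n => (T - u n) ^ (α + 1 / 2)) atTop (𝓝 0) := by
      have h3 : 0 < α + 1 / 2 := by positivity
      have := ((Real.continuous_rpow_const h3.le).tendsto 0).comp hu4
      rwa [Real.zero_rpow h3.ne'] at this
    have := (h1.const_mul 2).neg.sub (h2.const_mul (2 * C))
    simpa using this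
  -- the limit point
  obtain ⟨q0⟩ : Nonempty M := inferInstance
  have hcau : CauchySeq (fun n => F q0 (u n)) := by
    refine cauchySeq_of_le_tendsto_0 (fun n => 2 * (-Ga T C α (u n))) ?_ ?_
    · intro n m K hn hm
      have h1 := hdist q0 (u K) (u n) (hu1 K) (hu3 K n hn) (hu2 n)
      have h2 := hdist q0 (u K) (u m) (hu1 K) (hu3 K m hm) (hu2 m)
      have h3 := hGneg (u n) (hu2 n)
      have h4 := hGneg (u m) (hu2 m)
      have h5 : dist (F q0 (u n)) (F q0 (u m)) ≤
          ‖F q0 (u n) - F q0 (u K)‖ + ‖F q0 (u m) - F q0 (u K)‖ := by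
        rw [← dist_eq_norm, ← dist_eq_norm]
        exact dist_triangle_right _ _ _
      linarith
    · have := hG0.neg.const_mul 2
      simpa using this
  obtain ⟨x, hx⟩ := cauchySeq_tendsto_of_complete hcau
  refine ⟨x, 2 * C, by positivity, ?_⟩
  intro t ht q
  have hlim : Tendsto (fun n => -Ga T C α t + Real.sqrt ((32 * C + 128) * (C * (T - u n))) +
      ‖F q0 (u n) - x‖) atTop (𝓝 (-Ga T C α t + 0 + 0)) := by
    refine (tendsto_const_nhds.add ?_).add ?_
    · have h1 : Tendsto (fun n => (32 * C + 128) * (C * (T - u n))) atTop (𝓝 0) := by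
        have := (hu4.const_mul C).const_mul (32 * C + 128)
        simpa using this
      have := (Real.continuous_sqrt.tendsto 0).comp h1
      rwa [Real.sqrt_zero] at this
    · have := (hx.sub_const x).norm
      rwa [sub_self, norm_zero] at this
  have hev : ∀ᶠ n in atTop, ‖F q t - x‖ ≤ -Ga T C α t +
      Real.sqrt ((32 * C + 128) * (C * (T - u n))) + ‖F q0 (u n) - x‖ := by
    have h0 : ∀ᶠ n in atTop, T - u n < T - t := hu4.eventually (gt_mem_nhds (by linarith [ht.2]))
    filter_upwards [h0] with n hn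
    have htn : t ≤ u n := by linarith
    have h1 := hdist q t (u n) ht.1 htn (hu2 n)
    have h2 := hGneg (u n) (hu2 n)
    have hJn : u n ∈ Ioo 0 T := hJ (u n) ⟨hu1 n, hu2 n⟩
    obtain ⟨hA, hW, _⟩ := hyp (u n) ⟨hu1 n, hu2 n⟩
    have h3 : ‖F q (u n) - F q0 (u n)‖ ^ 2 ≤ (32 * C + 128) * (C * (T - u n)) := by
      have h4 := hDMJ N M (Ioo 0 T) F c χ hD.su.toJ (u n) hJn q q0
      have h5 : ‖F q (u n) - F q0 (u n)‖ ^ 2 ≤ (32 * wI F c χ (u n) + 128) * arI F c χ (u n) := h4
      have h6 : 0 ≤ arI F c χ (u n) := measureReal_nonneg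
      have h7 : (32 * wI F c χ (u n) + 128) * arI F c χ (u n) ≤
          (32 * C + 128) * arI F c χ (u n) := mul_le_mul_of_nonneg_right (by linarith) h6
      have h8 : (32 * C + 128) * arI F c χ (u n) ≤ (32 * C + 128) * (C * (T - u n)) :=
        mul_le_mul_of_nonneg_left hA (by positivity)
      linarith
    have h4 : ‖F q (u n) - F q0 (u n)‖ ≤ Real.sqrt ((32 * C + 128) * (C * (T - u n))) :=
      Real.le_sqrt_of_sq_le h3
    have h5 : ‖F q t - x‖ ≤ ‖F q (u n) - F q t‖ + ‖F q (u n) - F q0 (u n)‖ +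
        ‖F q0 (u n) - x‖ := by
      have e : F q t - x = -(F q (u n) - F q t) + (F q (u n) - F q0 (u n)) +
          (F q0 (u n) - x) := by abel
      rw [e]
      refine (norm_add_le _ _).trans ?_
      have := norm_add_le (-(F q (u n) - F q t)) (F q (u n) - F q0 (u n))
      rw [norm_neg] at this
      linarith
    linarith
  have hfin := ge_of_tendsto hlim hev
  have e : -Ga T C α t + 0 + 0 =
      2 * Real.sqrt (T - t) + 2 * C * (T - t) ^ (α + 1 / 2) := by
    unfold Ga
    ring
  rw [e] at hfin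
  exact hfin

end Helper42.MS
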